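import Mathlib

/-!
The short-time Fourier transform, lattices and phase retrieval.
-/

set_option autoImplicit false
open MeasureTheory
open scoped ENNReal Real ComplexConjugate

namespace Q83.Stft

/-- The short-time Fourier transform `V_g f (x, ω)`. -/
noncomputable def stft (g f : ℝ → ℂ) (x ω : ℝ) : ℂ :=
  ∫ t, f t * conj (g (t - x)) * Complex.exp (-(2 * π * Complex.I * ω * t))

/-- The lattice `A ℤ²` of the matrix `A`, as a set of points of the plane. -/
def lattice (A : Matrix (Fin 2) (Fin 2) ℝ) : Set (ℝ × ℝ) :=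
  {v | ∃ m n : ℤ, v = (A 0 0 * m + A 0 1 * n, A 1 0 * m + A 1 1 * n)}

/-- `(g, Λ)` has the phase retrieval uniqueness property. -/
def Uniqueness (g : ℝ → ℂ) (Λ : Set (ℝ × ℝ)) : Prop :=
  ∀ f h : ℝ → ℂ, MemLp f 2 volume → MemLp h 2 volume →
    (∀ v ∈ Λ, ‖stft g f v.1 v.2‖ = ‖stft g h v.1 v.2‖) →
    ∃ α : ℝ, f =ᵐ[volume] fun t => Complex.exp (Complex.I * α) * h t

end Q83.Stft
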