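import Mathlib

/-!
Linear independence of the powers of a time-frequency shift.
-/

set_option autoImplicit false
open MeasureTheory Filter Topology Set
open scoped ENNReal NNReal Real

namespace Q83.Stft

/-- The time-frequency shift. -/
noncomputable def UU (a b : ℝ) : Module.End ℂ (ℝ → ℂ) where
  toFun F := fun t => Complex.exp (2 * π * Complex.I * ((b * t : ℝ) : ℂ)) * F (t - a)
  map_add' F G := by
    funext t
    simp only [Pi.add_apply]
    ring
  map_smul' c F := by
    funext t
    simp only [Pi.smul_apply, smul_eq_mul, RingHom.id_apply]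
    ring

lemma norm_e (s : ℝ) : ‖Complex.exp (2 * π * Complex.I * ((s : ℝ) : ℂ))‖ = 1 := by
  rw [show (2 * π * Complex.I * ((s : ℝ) : ℂ) : ℂ) = ((2 * π * s : ℝ) : ℂ) * Complex.I by
    push_cast; ring, Complex.norm_exp_ofReal_mul_I]

lemma UU_apply (a b : ℝ) (F : ℝ → ℂ) (t : ℝ) :
    UU a b F t = Complex.exp (2 * π * Complex.I * ((b * t : ℝ) : ℂ)) * F (t - a) := rfl

lemma memLp_UU (a b : ℝ) (F : ℝ → ℂ) (hF : MemLp F 2) : MemLp (UU a b F) 2 := by
  have h1 : MemLp (fun t => F (t - a)) 2 :=
    hF.comp_measurePreserving (measurePreserving_sub_right volume a)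
  refine h1.mono ?_ (ae_of_all _ fun t => ?_)
  · have h2 : Continuous fun t : ℝ => Complex.exp (2 * π * Complex.I * ((b * t : ℝ) : ℂ)) := by
      fun_prop
    exact h2.aestronglyMeasurable.mul h1.1
  · rw [UU_apply, norm_mul, norm_e, one_mul]

lemma null_exp (b : ℝ) (hb : b ≠ 0) (z : ℂ) :
    volume {t : ℝ | Complex.exp (2 * π * Complex.I * ((b * t : ℝ) : ℂ)) = z} = 0 := by
  rcases Set.eq_empty_or_nonempty {t : ℝ | Complex.exp (2 * π * Complex.I * ((b * t : ℝ) : ℂ)) = z}
    with h | ⟨s, hs⟩
  · rw [h, measure_empty]
  · apply Set.Countable.measure_zero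
    refine (countable_range fun k : ℤ => s + k / b).mono ?_
    intro t ht
    have h1 : Complex.exp (2 * π * Complex.I * ((b * t : ℝ) : ℂ)) =
        Complex.exp (2 * π * Complex.I * ((b * s : ℝ) : ℂ)) := by
      rw [mem_ofPred_eq] at ht hs
      rw [ht, hs]
    rw [Complex.exp_eq_exp_iff_exists_int] at h1
    obtain ⟨k, hk⟩ := h1
    refine ⟨k, ?_⟩
    have h2 : ((b * t : ℝ) : ℂ) = ((b * s + k : ℝ) : ℂ) := by
      have h3 : (2 * π * Complex.I : ℂ) ≠ 0 := Complex.two_pi_I_ne_zero
      apply mul_left_cancel₀ h3
      rw [hk]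
      push_cast
      ring
    have h3 : b * t = b * s + k := by exact_mod_cast h2
    simp only
    field_simp
    linarith

/-- A time-frequency shift has no eigenvectors in `L²`. -/
lemma no_eigen (a b : ℝ) (hab : a ≠ 0 ∨ b ≠ 0) (F : ℝ → ℂ) (hF : MemLp F 2) (z : ℂ)
    (h : UU a b F =ᵐ[volume] z • F) : F =ᵐ[volume] 0 := by
  by_cases ha : a = 0
  · subst ha
    have hb : b ≠ 0 := by
      rcases hab with h | h
      · exact absurd rfl h
      · exact h
    have h1 : ∀ᵐ t : ℝ, Complex.exp (2 * π * Complex.I * ((b * t : ℝ) : ℂ)) ≠ z := by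
      rw [ae_iff]
      simp only [not_not]
      exact null_exp b hb z
    filter_upwards [h, h1] with t h2 h3
    rw [UU_apply, sub_zero, Pi.smul_apply, smul_eq_mul] at h2
    have h4 : (Complex.exp (2 * π * Complex.I * ((b * t : ℝ) : ℂ)) - z) * F t = 0 := by
      rw [sub_mul, h2, sub_self]
    exact (mul_eq_zero.1 h4).resolve_left (sub_ne_zero.2 h3)
  · -- the measure with density
    obtain ⟨G, hGm, hGF⟩ := hF.1
    have hmG : Measurable fun t => ‖G t‖ₑ ^ 2 := hGm.measurable.enorm.pow_const 2
    set ν : Measure ℝ := volume.withDensity fun t => ‖G t‖ₑ ^ 2 with hν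
    have hfin : IsFiniteMeasure ν := by
      constructor
      rw [hν, withDensity_apply _ MeasurableSet.univ, Measure.restrict_univ]
      have h2 := (hF.ae_eq hGF)
      have h3 := h2.eLpNorm_lt_top
      rw [eLpNorm_lt_top_iff_lintegral_rpow_enorm_lt_top (by norm_num) (by norm_num)] at h3
      simpa using h3
    have hrel : ∀ᵐ t : ℝ, ‖G (t - a)‖ₑ ^ 2 = ‖z‖ₑ ^ 2 * ‖G t‖ₑ ^ 2 := by
      have h3 : ∀ᵐ t : ℝ, F (t - a) = G (t - a) :=
        (measurePreserving_sub_right volume a).quasiMeasurePreserving.ae_eq_comp hGF
      filter_upwards [h, hGF, h3] with t h4 h5 h6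
      rw [UU_apply, Pi.smul_apply, smul_eq_mul, h6, h5] at h4
      have h7 : ‖G (t - a)‖ₑ = ‖z‖ₑ * ‖G t‖ₑ := by
        rw [← enorm_mul, ← h4, enorm_mul]
        have h8 : ‖Complex.exp (2 * π * Complex.I * ((b * t : ℝ) : ℂ))‖ₑ = 1 := by
          rw [← ofReal_norm, norm_e, ENNReal.ofReal_one]
        rw [h8, one_mul]
      rw [h7, mul_pow]
    have hshift2 : ∀ s : Set ℝ, MeasurableSet s →
        ν s = ‖z‖ₑ ^ 2 * ν ((fun t => t - a) ⁻¹' s) := by
      intro s hs
      have hs' : MeasurableSet ((fun t : ℝ => t - a) ⁻¹' s) := (measurable_id.sub_const a) hs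
      rw [hν, withDensity_apply _ hs, withDensity_apply _ hs', ← lintegral_const_mul _ hmG,
        ← (measurePreserving_sub_right volume a).setLIntegral_comp_preimage hs hmG]
      apply setLIntegral_congr_fun_ae hs'
      filter_upwards [hrel] with t ht _
      exact ht
    have hz : ν univ = 0 ∨ ‖z‖ₑ ^ 2 = 1 := by
      by_cases h0 : ν univ = 0
      · exact Or.inl h0
      · right
        have h1 := hshift2 univ MeasurableSet.univ
        rw [preimage_univ] at h1
        have h2 : 1 * ν univ = ‖z‖ₑ ^ 2 * ν univ := by rw [one_mul]; exact h1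
        exact ((ENNReal.mul_left_inj h0 (measure_ne_top ν univ)).1 h2).symm
    have hν0 : ν univ = 0 := by
      rcases hz with h0 | h0
      · exact h0
      · have hper : ∀ R : ℝ, ν (Ioi (R + a)) = ν (Ioi R) := by
          intro R
          have h1 := hshift2 (Ioi R) measurableSet_Ioi
          rw [h0, one_mul] at h1
          rw [h1]
          congr 1
          ext t
          simp only [mem_Ioi, mem_preimage]
          constructor <;> intro h <;> linarith
        have hper2 : ∀ (R : ℝ) (k : ℕ), ν (Ioi (R + k * |a|)) = ν (Ioi R) := by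
          intro R k
          induction k with
          | zero => simp
          | succ k ih =>
            rw [← ih]
            rcases abs_cases a with ⟨h1, _⟩ | ⟨h1, _⟩
            · rw [← hper (R + k * |a|)]
              congr 2
              push_cast
              rw [h1]
              ring
            · rw [← hper (R + (k + 1 : ℕ) * |a|)]
              congr 2
              push_cast
              rw [h1]
              ring
        have hzero : ∀ R : ℝ, ν (Ioi R) = 0 := by
          intro R
          have h1 : Tendsto (fun k : ℕ => ν (Ioi (R + k * |a|))) atTop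
              (𝓝 (ν (⋂ k : ℕ, Ioi (R + k * |a|)))) := by
            apply tendsto_measure_iInter_atTop
            · intro k
              exact measurableSet_Ioi.nullMeasurableSet
            · intro k l hkl
              apply Ioi_subset_Ioi
              have : (k : ℝ) ≤ l := by exact_mod_cast hkl
              have := abs_nonneg a
              nlinarith
            · exact ⟨0, measure_ne_top _ _⟩
          have h2 : (⋂ k : ℕ, Ioi (R + k * |a|)) = ∅ := by
            rw [eq_empty_iff_forall_notMem]
            intro t ht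
            rw [mem_iInter] at ht
            obtain ⟨k, hk⟩ := exists_nat_gt ((t - R) / |a|)
            have h3 := ht k
            rw [mem_Ioi] at h3
            rw [div_lt_iff₀ (abs_pos.2 ha)] at hk
            linarith
          rw [h2, measure_empty] at h1
          simp only [hper2] at h1
          exact tendsto_nhds_unique tendsto_const_nhds h1
        have hU : (univ : Set ℝ) = ⋃ k : ℕ, Ioi (-(k : ℝ)) := by
          ext t
          simp only [mem_univ, mem_iUnion, mem_Ioi, true_iff]
          obtain ⟨k, hk⟩ := exists_nat_gt (-t)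
          exact ⟨k, by linarith⟩
        rw [hU]
        exact measure_iUnion_null fun k => hzero _
    rw [hν, withDensity_apply _ MeasurableSet.univ, Measure.restrict_univ,
      lintegral_eq_zero_iff hmG] at hν0
    filter_upwards [hν0, hGF] with t h1 h2
    rw [h2]
    simpa using h1

lemma memLp_aeval (a b : ℝ) (G : ℝ → ℂ) (hG : MemLp G 2) (p : Polynomial ℂ) :
    MemLp (Polynomial.aeval (UU a b) p G) 2 := by
  induction p using Polynomial.induction_on' with
  | add p q hp hq =>
    rw [map_add, LinearMap.add_apply]
    exact hp.add hq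
  | monomial n c =>
    rw [Polynomial.aeval_monomial, Module.End.mul_apply, Module.algebraMap_end_apply]
    apply MemLp.const_smul
    induction n with
    | zero => simpa using hG
    | succ n ih =>
      rw [pow_succ', Module.End.mul_apply]
      exact memLp_UU a b _ ih

/-- No nonzero polynomial in the shift annihilates a nonzero `L²` function. -/
theorem aeval_ne (a b : ℝ) (hab : a ≠ 0 ∨ b ≠ 0) (G : ℝ → ℂ) (hG : MemLp G 2)
    (hG0 : ¬ G =ᵐ[volume] 0) (p : Polynomial ℂ) (hp : p ≠ 0) :
    ¬ Polynomial.aeval (UU a b) p G =ᵐ[volume] 0 := by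
  induction hd : p.natDegree using Nat.strong_induction_on generalizing p with
  | _ d ih =>
    by_cases hd0 : d = 0
    · rw [hd0] at hd
      rw [Polynomial.eq_C_of_natDegree_eq_zero hd, Polynomial.aeval_C, Module.algebraMap_end_apply]
      have hc : p.coeff 0 ≠ 0 := by
        intro h
        apply hp
        rw [Polynomial.eq_C_of_natDegree_eq_zero hd, h, Polynomial.C_0]
      intro h
      apply hG0
      filter_upwards [h] with t ht
      rw [Pi.smul_apply, smul_eq_mul, Pi.zero_apply] at ht
      exact (mul_eq_zero.1 ht).resolve_left hc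
    · have hdeg : p.degree ≠ 0 := by
        rw [Polynomial.degree_eq_natDegree hp, hd]
        exact_mod_cast hd0
      obtain ⟨z, hz⟩ := IsAlgClosed.exists_root p hdeg
      obtain ⟨q, hq⟩ := Polynomial.dvd_iff_isRoot.2 hz
      have hq0 : q ≠ 0 := by
        rintro rfl
        rw [mul_zero] at hq
        exact hp hq
      have hqd : q.natDegree < d := by
        rw [← hd, hq, Polynomial.natDegree_mul (Polynomial.X_sub_C_ne_zero z) hq0,
          Polynomial.natDegree_X_sub_C]
        omega
      have h1 := ih q.natDegree hqd q hq0 rfl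
      intro h2
      apply h1
      apply no_eigen a b hab _ (memLp_aeval a b G hG q) z
      rw [hq, map_mul, Module.End.mul_apply, map_sub, Polynomial.aeval_X, Polynomial.aeval_C,
        LinearMap.sub_apply, Module.algebraMap_end_apply] at h2
      filter_upwards [h2] with t ht
      rw [Pi.sub_apply, Pi.zero_apply] at ht
      exact sub_eq_zero.1 ht

end Q83.Stft
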