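import Pool.Agent.Q83.Stft.Defs
import Pool.Agent.Q83.Stft.Indep

/-!
A lattice together with finitely many points does no phase retrieval.
-/

set_option autoImplicit false
open MeasureTheory Filter Topology Set
open scoped ENNReal NNReal Real ComplexConjugate

namespace Q83.Stft

/-- The building blocks. -/
noncomputable def vk (g : ℝ → ℂ) (a b : ℝ) (k : ℕ) (t : ℝ) : ℂ :=
  Complex.exp (2 * π * Complex.I * ((k * b * t - k ^ 2 * (a * b) / 2 : ℝ) : ℂ)) * g (k * a - t)

/-- The phase. -/
noncomputable def eps (a b : ℝ) (k : ℕ) : ℂ :=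
  Complex.exp (2 * π * Complex.I * ((-(k * (a * b) / 2) : ℝ) : ℂ))

lemma UU_pow (g : ℝ → ℂ) (a b : ℝ) (k : ℕ) (t : ℝ) :
    ((UU a b) ^ k) (fun t => g (-t)) t =
      Complex.exp (2 * π * Complex.I * ((k * b * t - k * (k - 1) * (a * b) / 2 : ℝ) : ℂ)) *
        g (k * a - t) := by
  induction k generalizing t with
  | zero => simp
  | succ k ih =>
    rw [pow_succ', Module.End.mul_apply, UU_apply, ih, ← mul_assoc, ← Complex.exp_add]
    congr 2
    · push_cast
      ring
    · push_cast
      ring

lemma vk_eq (g : ℝ → ℂ) (a b : ℝ) (k : ℕ) (t : ℝ) :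
    vk g a b k t = eps a b k * ((UU a b) ^ k) (fun t => g (-t)) t := by
  rw [UU_pow, ← mul_assoc, eps, ← Complex.exp_add, vk]
  congr 2
  push_cast
  ring

lemma eps_ne (a b : ℝ) (k : ℕ) : eps a b k ≠ 0 := Complex.exp_ne_zero _

lemma memLp_neg (g : ℝ → ℂ) (hg : MemLp g 2) : MemLp (fun t => g (-t)) 2 :=
  hg.comp_measurePreserving (Measure.measurePreserving_neg volume)

lemma memLp_vk (g : ℝ → ℂ) (hg : MemLp g 2) (a b : ℝ) (k : ℕ) : MemLp (vk g a b k) 2 := by
  have h1 : MemLp (((UU a b) ^ k) (fun t => g (-t))) 2 := by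
    have := memLp_aeval a b _ (memLp_neg g hg) (Polynomial.X ^ k)
    rwa [map_pow, Polynomial.aeval_X] at this
  have h2 := h1.const_smul (eps a b k)
  refine h2.ae_eq (ae_of_all _ fun t => ?_)
  rw [vk_eq]
  rfl

/-- The combinations. -/
noncomputable def comb (g : ℝ → ℂ) (a b : ℝ) (m : ℕ) (d : ℕ → ℂ) (t : ℝ) : ℂ :=
  ∑ k ∈ Finset.range m, d k * vk g a b k t

lemma memLp_comb (g : ℝ → ℂ) (hg : MemLp g 2) (a b : ℝ) (m : ℕ) (d : ℕ → ℂ) :
    MemLp (comb g a b m d) 2 := by
  unfold comb
  exact memLp_finsetSum _ fun k _ => (memLp_vk g hg a b k).const_mul (d k)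

lemma indep (g : ℝ → ℂ) (hg : MemLp g 2) (hg0 : ¬ g =ᵐ[volume] 0) (a b : ℝ) (hab : a ≠ 0 ∨ b ≠ 0)
    (m : ℕ) (d : ℕ → ℂ) (h : comb g a b m d =ᵐ[volume] 0) (k : ℕ) (hk : k < m) : d k = 0 := by
  by_contra hd
  set p : Polynomial ℂ := ∑ k ∈ Finset.range m, Polynomial.monomial k (d k * eps a b k) with hp
  have hp0 : p ≠ 0 := by
    intro h0
    have h1 : p.coeff k = d k * eps a b k := by
      rw [hp, Polynomial.finsetSum_coeff]
      simp only [Polynomial.coeff_monomial]
      rw [Finset.sum_ite_eq' (Finset.range m) k (fun j => d j * eps a b j),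
        if_pos (Finset.mem_range.2 hk)]
    rw [h0, Polynomial.coeff_zero] at h1
    exact mul_ne_zero hd (eps_ne a b k) h1.symm
  have hG0 : ¬ (fun t => g (-t)) =ᵐ[volume] 0 := by
    intro h1
    apply hg0
    have h2 := (Measure.measurePreserving_neg (volume : Measure ℝ)).quasiMeasurePreserving.ae_eq_comp h1
    filter_upwards [h2] with t ht
    simpa using ht
  apply aeval_ne a b hab _ (memLp_neg g hg) hG0 p hp0
  refine EventuallyEq.trans (ae_of_all _ fun t => ?_) h
  rw [hp, map_sum, LinearMap.sum_apply, Finset.sum_apply]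
  unfold comb
  apply Finset.sum_congr rfl
  intro j _
  rw [Polynomial.aeval_monomial, Module.End.mul_apply, Module.algebraMap_end_apply, Pi.smul_apply,
    smul_eq_mul, vk_eq, mul_assoc]

lemma integrable_stft (g f : ℝ → ℂ) (hg : MemLp g 2) (hf : MemLp f 2) (x ω : ℝ) :
    Integrable fun t => f t * conj (g (t - x)) * Complex.exp (-(2 * π * Complex.I * ω * t)) := by
  have h1 : MemLp (fun t => conj (g (t - x))) 2 :=
    (hg.comp_measurePreserving (measurePreserving_sub_right volume x)).star
  have h2 : Integrable fun t => f t * conj (g (t - x)) := hf.integrable_mul h1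
  refine h2.mono ?_ (ae_of_all _ fun t => ?_)
  · have h3 : Continuous fun t : ℝ => Complex.exp (-(2 * π * Complex.I * ω * t)) := by fun_prop
    exact h2.1.mul h3.aestronglyMeasurable
  · rw [norm_mul _ (Complex.exp _), show (-(2 * π * Complex.I * ω * t) : ℂ) =
      ((-(2 * π * ω * t) : ℝ) : ℂ) * Complex.I by push_cast; ring, Complex.norm_exp_ofReal_mul_I,
      mul_one]

lemma stft_comb (g : ℝ → ℂ) (hg : MemLp g 2) (a b : ℝ) (m : ℕ) (d : ℕ → ℂ) (x ω : ℝ) :
    stft g (comb g a b m d) x ω = ∑ k ∈ Finset.range m, d k * stft g (vk g a b k) x ω := by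
  unfold stft comb
  simp only [Finset.sum_mul]
  rw [integral_finsetSum _ (fun k _ => by
    have := (integrable_stft g _ hg (memLp_vk g hg a b k) x ω).const_mul (d k)
    refine this.congr (ae_of_all _ fun t => ?_)
    simp only
    ring)]
  apply Finset.sum_congr rfl
  intro k _
  rw [← integral_const_mul]
  congr 1
  funext t
  ring

/-- The reality of the short-time Fourier transform on the lattice. -/
lemma real_on (g : ℝ → ℂ) (a b : ℝ) (k : ℕ) (x ω : ℝ) (n : ℤ) (hn : b * x - ω * a = n) :
    ∃ r : ℝ, stft g (vk g a b k) x ω =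
      r * Complex.exp (-(2 * π * Complex.I * ((ω * x / 2 : ℝ) : ℂ))) := by
  set J := stft g (vk g a b k) x ω with hJ
  have h1 : J = Complex.exp (-(2 * π * Complex.I * ((ω * x : ℝ) : ℂ))) * conj J := by
    have h2 : J = ∫ t, vk g a b k (x + k * a - t) * conj (g (x + k * a - t - x)) *
        Complex.exp (-(2 * π * Complex.I * ω * ((x + k * a - t : ℝ) : ℂ))) := by
      rw [hJ, stft]
      exact (integral_sub_left_eq_self (fun t : ℝ => vk g a b k t * conj (g (t - x)) *
        Complex.exp (-(2 * π * Complex.I * ω * (t : ℂ)))) volume (x + k * a)).symm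
    have h2' : conj J = ∫ t, conj (vk g a b k t * conj (g (t - x)) *
        Complex.exp (-(2 * π * Complex.I * ω * (t : ℂ)))) := by
      rw [hJ, stft, ← integral_conj]
    rw [h2', h2, ← integral_const_mul]
    congr 1
    funext t
    unfold vk
    rw [map_mul, map_mul, map_mul, Complex.conj_conj, ← Complex.exp_conj, ← Complex.exp_conj,
      show (k * a - (x + k * a - t) : ℝ) = t - x by ring,
      show (x + k * a - t - x : ℝ) = k * a - t by ring]
    have h3 : (starRingEnd ℂ) (2 * π * Complex.I * ((k * b * t - k ^ 2 * (a * b) / 2 : ℝ) : ℂ)) =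
        -(2 * π * Complex.I * ((k * b * t - k ^ 2 * (a * b) / 2 : ℝ) : ℂ)) := by
      rw [map_mul, map_mul, map_mul, Complex.conj_ofReal, Complex.conj_ofReal, Complex.conj_I,
        Complex.conj_ofNat]
      ring
    have h4 : (starRingEnd ℂ) (-(2 * π * Complex.I * ω * (t : ℂ))) = 2 * π * Complex.I * ω * t := by
      rw [map_neg, map_mul, map_mul, map_mul, map_mul, Complex.conj_ofReal, Complex.conj_ofReal,
        Complex.conj_ofReal, Complex.conj_I, Complex.conj_ofNat]
      ring
    rw [h3, h4]
    -- compare the exponentials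
    have h6 : Complex.exp (2 * π * Complex.I *
          ((k * b * (x + k * a - t) - k ^ 2 * (a * b) / 2 : ℝ) : ℂ)) *
        Complex.exp (-(2 * π * Complex.I * ω * ((x + k * a - t : ℝ) : ℂ))) =
        Complex.exp (-(2 * π * Complex.I * ((ω * x : ℝ) : ℂ))) *
          (Complex.exp (-(2 * π * Complex.I * ((k * b * t - k ^ 2 * (a * b) / 2 : ℝ) : ℂ))) *
            Complex.exp (2 * π * Complex.I * ω * t)) := by
      rw [← Complex.exp_add, ← Complex.exp_add, ← Complex.exp_add, Complex.exp_eq_exp_iff_exists_int]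
      refine ⟨k * n, ?_⟩
      have h7 : (b : ℂ) * x - ω * a = n := by exact_mod_cast hn
      push_cast
      linear_combination (2 * π * Complex.I * k) * h7
    linear_combination (g (t - x) * conj (g (k * a - t))) * h6
  set E : ℂ := Complex.exp (2 * π * Complex.I * ((ω * x / 2 : ℝ) : ℂ)) with hE
  have hE0 : E ≠ 0 := Complex.exp_ne_zero _
  have hEinv : Complex.exp (-(2 * π * Complex.I * ((ω * x / 2 : ℝ) : ℂ))) = E⁻¹ := Complex.exp_neg _
  have hEsq : Complex.exp (-(2 * π * Complex.I * ((ω * x : ℝ) : ℂ))) = E⁻¹ * E⁻¹ := by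
    rw [← hEinv, ← Complex.exp_add]
    congr 1
    push_cast
    ring
  have hconj : conj E = E⁻¹ := by
    rw [← hEinv, hE, ← Complex.exp_conj]
    congr 1
    rw [map_mul, map_mul, map_mul, Complex.conj_ofReal, Complex.conj_ofReal, Complex.conj_I,
      Complex.conj_ofNat]
    ring
  have h8 : conj (J * E) = J * E := by
    rw [map_mul, hconj]
    conv_rhs => rw [h1, hEsq]
    field_simp
  obtain ⟨r, hr⟩ := Complex.conj_eq_iff_real.1 h8
  refine ⟨r, ?_⟩
  rw [hEinv, ← hr]
  field_simp

lemma norm_conj_sum (m : ℕ) (d s : ℕ → ℂ) (E : ℂ) (hs : ∀ k, ∃ r : ℝ, s k = r * E) :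
    ‖∑ k ∈ Finset.range m, d k * s k‖ = ‖∑ k ∈ Finset.range m, conj (d k) * s k‖ := by
  choose r hr using hs
  have h1 : ∀ d : ℕ → ℂ, ∑ k ∈ Finset.range m, d k * s k =
      (∑ k ∈ Finset.range m, d k * r k) * E := by
    intro d
    rw [Finset.sum_mul]
    apply Finset.sum_congr rfl
    intro k _
    rw [hr]
    ring
  rw [h1, h1, norm_mul, norm_mul]
  congr 1
  have h2 : ∑ k ∈ Finset.range m, conj (d k) * (r k : ℂ) = conj (∑ k ∈ Finset.range m, d k * r k) := by
    rw [map_sum]
    apply Finset.sum_congr rfl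
    intro k _
    rw [map_mul, Complex.conj_ofReal]
  rw [h2, Complex.norm_conj]

theorem no_uniqueness (g : ℝ → ℂ) (hg : MemLp g 2) (A : Matrix (Fin 2) (Fin 2) ℝ) (hA : A.det ≠ 0)
    (P : Set (ℝ × ℝ)) (hP : P.Finite) : ¬ Uniqueness g (lattice A ∪ P) := by
  intro hU
  by_cases hg0 : g =ᵐ[volume] 0
  · -- the trivial case
    have hz : ∀ f : ℝ → ℂ, ∀ x ω : ℝ, stft g f x ω = 0 := by
      intro f x ω
      unfold stft
      have h1 : ∀ᵐ t : ℝ, g (t - x) = 0 :=
        (measurePreserving_sub_right volume x).quasiMeasurePreserving.ae_eq_comp hg0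
      rw [integral_eq_zero_of_ae]
      filter_upwards [h1] with t ht
      simp [ht]
    obtain ⟨α, hα⟩ := hU ((Icc (0 : ℝ) 1).indicator fun _ => (1 : ℂ)) 0
      (memLp_indicator_const 2 measurableSet_Icc 1 (Or.inr (by simp))) MemLp.zero
      (fun v _ => by rw [hz, hz])
    have h1 : volume (Icc (0 : ℝ) 1) = 0 := by
      have h2 : ∀ᵐ t : ℝ, t ∉ Icc (0 : ℝ) 1 := by
        filter_upwards [hα] with t ht hmem
        rw [indicator_of_mem hmem] at ht
        simp at ht
      rw [ae_iff] at h2
      simp only [not_not] at h2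
      exact h2
    rw [Real.volume_Icc] at h1
    simp at h1
  · -- the adjoint vector
    rw [Matrix.det_fin_two] at hA
    set D : ℝ := A 0 0 * A 1 1 - A 0 1 * A 1 0 with hD
    set a : ℝ := A 0 0 / D with ha
    set b : ℝ := A 1 0 / D with hb
    have hab : a ≠ 0 ∨ b ≠ 0 := by
      by_contra hc
      push Not at hc
      have h1 : A 0 0 = 0 := by
        have := hc.1
        rw [ha, div_eq_zero_iff] at this
        exact this.resolve_right hA
      have h2 : A 1 0 = 0 := by
        have := hc.2
        rw [hb, div_eq_zero_iff] at this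
        exact this.resolve_right hA
      apply hA
      rw [hD, h1, h2]
      ring
    have hint : ∀ v ∈ lattice A, ∃ l : ℤ, b * v.1 - v.2 * a = l := by
      rintro v ⟨m, n, rfl⟩
      refine ⟨-n, ?_⟩
      rw [ha, hb]
      field_simp
      push_cast
      rw [hD]
      ring
    -- the coefficients
    set Q : Finset (ℝ × ℝ) := hP.toFinset with hQ
    set m : ℕ := 2 * Q.card + 1 with hm
    let Φ : (Fin m → ℝ) →ₗ[ℝ] (Q → ℂ) :=
      { toFun := fun c p => ∑ k : Fin m, (c k : ℂ) * stft g (vk g a b k) p.1.1 p.1.2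
        map_add' := by
          intro c c'
          funext p
          simp only [Pi.add_apply]
          rw [← Finset.sum_add_distrib]
          apply Finset.sum_congr rfl
          intro k _
          push_cast
          ring
        map_smul' := by
          intro r c
          funext p
          simp only [Pi.smul_apply, smul_eq_mul, RingHom.id_apply, Complex.real_smul]
          rw [Finset.mul_sum]
          apply Finset.sum_congr rfl
          intro k _
          push_cast
          ring }
    have hker : LinearMap.ker Φ ≠ ⊥ := by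
      apply LinearMap.ker_ne_bot_of_finrank_lt
      rw [Module.finrank_pi, Module.finrank_pi_fintype]
      simp only [Complex.finrank_real_complex, Finset.sum_const, Finset.card_univ, smul_eq_mul,
        Fintype.card_coe, Fintype.card_fin]
      omega
    obtain ⟨c, hc, hc0⟩ := Submodule.exists_mem_ne_zero_of_ne_bot hker
    rw [LinearMap.mem_ker] at hc
    obtain ⟨k0, hk0⟩ : ∃ k0, c k0 ≠ 0 := by
      by_contra h
      push Not at h
      exact hc0 (funext h)
    let d : ℕ → ℂ := fun k => if h : k < m then ((c ⟨k, h⟩ : ℝ) : ℂ) else Complex.I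
    have hdm : d m = Complex.I := by simp [d]
    have hdk : ∀ k : Fin m, d k = ((c k : ℝ) : ℂ) := by
      intro k
      simp [d]
    have hsum : ∀ s : ℕ → ℂ, ∑ k ∈ Finset.range (m + 1), d k * s k =
        ∑ k : Fin m, ((c k : ℝ) : ℂ) * s k + Complex.I * s m := by
      intro s
      rw [Finset.sum_range_succ, hdm, Finset.sum_range]
      simp only [hdk]
    have hsum' : ∀ s : ℕ → ℂ, ∑ k ∈ Finset.range (m + 1), conj (d k) * s k =
        ∑ k : Fin m, ((c k : ℝ) : ℂ) * s k - Complex.I * s m := by
      intro s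
      rw [Finset.sum_range_succ, hdm, Finset.sum_range]
      simp only [hdk, Complex.conj_ofReal, Complex.conj_I]
      ring
    obtain ⟨α, hα⟩ := hU (comb g a b (m + 1) d) (comb g a b (m + 1) fun k => conj (d k))
      (memLp_comb g hg a b _ _) (memLp_comb g hg a b _ _) (fun v hv => by
        rw [stft_comb g hg, stft_comb g hg]
        rcases hv with hv | hv
        · obtain ⟨l, hl⟩ := hint v hv
          exact norm_conj_sum (m + 1) d _ _ fun k => real_on g a b k v.1 v.2 l hl
        · have h1 := congrFun hc ⟨v, hP.mem_toFinset.2 hv⟩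
          simp only [Φ, LinearMap.coe_mk, AddHom.coe_mk, Pi.zero_apply] at h1
          rw [hsum (fun k => stft g (vk g a b k) v.1 v.2),
            hsum' (fun k => stft g (vk g a b k) v.1 v.2), h1, zero_add, zero_sub, norm_neg])
    -- the contradiction
    have h2 : comb g a b (m + 1) (fun k => d k - Complex.exp (Complex.I * α) * conj (d k))
        =ᵐ[volume] 0 := by
      filter_upwards [hα] with t ht
      have h3 : comb g a b (m + 1) (fun k => d k - Complex.exp (Complex.I * α) * conj (d k)) t =
          comb g a b (m + 1) d t - Complex.exp (Complex.I * α) *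
            comb g a b (m + 1) (fun k => conj (d k)) t := by
        unfold comb
        rw [Finset.mul_sum, ← Finset.sum_sub_distrib]
        apply Finset.sum_congr rfl
        intro k _
        ring
      rw [h3, ht, sub_self]
      rfl
    have h4 := indep g hg hg0 a b hab (m + 1) _ h2 m (Nat.lt_succ_self m)
    have h5 := indep g hg hg0 a b hab (m + 1) _ h2 k0 (by omega)
    rw [hdm, Complex.conj_I] at h4
    have h6 : Complex.exp (Complex.I * α) = -1 := by
      have h7 : Complex.I * (Complex.exp (Complex.I * α) + 1) = 0 := by linear_combination h4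
      have := (mul_eq_zero.1 h7).resolve_left Complex.I_ne_zero
      linear_combination this
    rw [hdk, Complex.conj_ofReal, h6] at h5
    have h8 : ((c k0 : ℝ) : ℂ) = 0 := by linear_combination h5 / 2
    exact hk0 (by exact_mod_cast h8)

end Q83.Stft
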